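import Pool.Agent.P.MP_cedf91_co.Assemble
import Pool.Agent.P.MP_cedf91_co.T1
import Pool.Agent.P.MP_cedf91_co.T2
import Pool.Agent.P.MP_cedf91_co.Cone
import Pool.Agent.P.MP_cedf91_co.IH3

/-! Simplex quotients of high-dimensional polytopes (question of Perles): full positive answer. -/

namespace Pool.Agent.Results.MP_cedf91_co.Perles

open Classical in
/-- Dimension of a face: `-1` for the empty set, otherwise the dimension of its affine hull. -/
noncomputable def faceDim {d : ℕ} (F : Set (EuclideanSpace ℝ (Fin d))) : ℤ :=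
  if F = ∅ then -1 else (Module.finrank ℝ (vectorSpan ℝ F) : ℤ)

/-- For every `k` there is `d'` such that every `d`-polytope `P` with `d > d'` has faces `F ⊆ G`
with `dim G - dim F - 1 = k` whose interval `[F, G]` in the face lattice is a Boolean lattice of
rank `k + 1`. Faces are the exposed faces of Mathlib, which include `∅` and `P`. -/
theorem result : ∀ k : ℕ, ∃ d' : ℕ, ∀ d : ℕ, d' < d →
    ∀ (V : Finset (EuclideanSpace ℝ (Fin d))) (P : Set (EuclideanSpace ℝ (Fin d))),
    P = convexHull ℝ (V : Set (EuclideanSpace ℝ (Fin d))) → affineSpan ℝ P = ⊤ →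
    ∃ F G : Set (EuclideanSpace ℝ (Fin d)), IsExposed ℝ P F ∧ IsExposed ℝ P G ∧ F ⊆ G ∧
      faceDim G - faceDim F - 1 = k ∧
      Nonempty ({H : Set (EuclideanSpace ℝ (Fin d)) // IsExposed ℝ P H ∧ F ⊆ H ∧ H ⊆ G} ≃o
        Finset (Fin (k + 1))) := by
  intro k
  obtain ⟨d', h⟩ := Pool.Agent.P.MP_cedf91_co.assemble Pool.Agent.P.MP_cedf91_co.t1
    Pool.Agent.P.MP_cedf91_co.t2 Pool.Agent.P.MP_cedf91_co.karu Pool.Agent.P.MP_cedf91_co.cone k
  refine ⟨d', fun d hd V P hP hV => ?_⟩
  subst hP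
  exact h d hd V (by rwa [affineSpan_convexHull] at hV)

end Pool.Agent.Results.MP_cedf91_co.Perles
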